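import Pool.Agent.Helper18.LD7.FO
import Pool.Agent.Helper78.LD7.CORE
import Pool.Agent.Helper47.LD7.TTB2

/-!
# LD7, block FO, final form
-/

set_option autoImplicit false

namespace Pool.Agent.Helper18.LD7

open Set MeasureTheory
open Pool.Agent.Helper41.LD5 (fp pwf)
open Pool.Agent.Helper41.LD6 (hr vr vq Qs Gr)
open Pool.Agent.Helper41.LD7
open Pool.Agent.Helper18.LD6 (Core)
open Pool.Agent.Helper78.LD7 (core)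
open Pool.Agent.Helper47.LD7 (Tt_bound V_mono n₀_big)

variable {F : Pm} {K : ℕ} {a₀ ℓst a ℓ x : ℝ} {u : ℕ × (Fin (F.d + 1) → ℕ)} {u' : ℕ × (Fin (F.d + 1) → ℕ)} {j j' : ℕ}

theorem core' (hF : F.Ok) (hK : F.Big K) (S : F.St K a₀ ℓst) (hℓ : 0 < ℓ) (h1 : a₀ ≤ a) (h2 : a + ℓ ≤ a₀ + ℓst) {p p' ϑ : ℝ}
    (hp : a ≤ p) (hpq : p ≤ p') (hq : p' ≤ a + ℓ) (hϑ : 0 < ϑ) :
    Core K F.t (fun τ => (F.P ≤ τ ∧ τ ≤ 2 ^ (3 * K)) ∧ ϑ ≤ fp F.A₀ F.P τ a * ℓ) (pwf F.A₀ F.c F.P) p p'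
      ((1 / 2) ^ (11 * F.E K) * (p' - p) + 2 ^ (F.C₀ * F.E K) * ℓ / ϑ) := by
  intro I hI hok f hf
  exact core hF hK S hℓ h1 h2 hp hpq hq I hI (fun τ hτ => (hok τ hτ).1) hϑ (fun τ hτ => (hok τ hτ).2) f hf

theorem fast_one (hF : F.Ok) (hK : F.Big K) (S : F.St K a₀ ℓst) (hℓ : 0 < ℓ) (h1 : a₀ ≤ a) (h2 : a + ℓ ≤ a₀ + ℓst) {p p' ϑ : ℝ}
    (hp : a ≤ p) (hpq : p ≤ p') (hq : p' ≤ a + ℓ) (hϑ : 0 < ϑ) (hV : ϑ ≤ F.V K a₀ ℓst j a * ℓ) (hu : u ∈ F.Is K) :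
    |∫ x in p..p', F.G K a₀ ℓst u j x| ≤ (1 / 2) ^ (11 * F.E K) * (p' - p) + 2 ^ (F.C₀ * F.E K) * ℓ / ϑ := by
  have h0 : 0 ≤ p' - p := by linarith
  exact fast_one_of (by positivity) (Tt_bound hF hK S) (n₀_big hF hK S) (fun h => V_mono hF hK S h1 h) hℓ.le
    (core' hF hK S hℓ h1 h2 hp hpq hq hϑ) hV hu

open Classical in
theorem fast_two (hF : F.Ok) (hK : F.Big K) (S : F.St K a₀ ℓst) (hℓ : 0 < ℓ) (h1 : a₀ ≤ a) (h2 : a + ℓ ≤ a₀ + ℓst) {ϑ : ℝ}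
    (hϑ : 0 < ϑ) (hV : ϑ ≤ F.V K a₀ ℓst j a * ℓ) (hV' : ϑ ≤ F.V K a₀ ℓst j' a * ℓ) (hu : u ∈ F.Is K) (hu' : u' ∈ F.Is K)
    (hj : j < 2 ^ (2 * K)) (hj' : j' < 2 ^ (2 * K)) :
    |(∫ x in a..(a + ℓ), F.G K a₀ ℓst u j x * F.G K a₀ ℓst u' j' x) -
        ℓ * (if j = j' ∧ u = u' ∧ (F.n₀ K a₀ ℓst + j) % F.Q = u.1 then vq u.2 else 0)| ≤
      ((1 / 2) ^ (11 * F.E K) + 2 ^ (F.C₀ * F.E K) / ϑ) * ℓ := by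
  refine (fast_two_of ?_ (Tt_bound hF hK S) (n₀_big hF hK S) (fun h => V_mono hF hK S h1 h) hℓ.le
    (core' hF hK S hℓ h1 h2 (le_refl _) (by linarith) (le_refl _) hϑ) hV hV' hu hu' hj hj').trans (le_of_eq ?_)
  · rw [add_sub_cancel_left]
    positivity
  · rw [add_sub_cancel_left]
    ring

end Pool.Agent.Helper18.LD7
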