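import Pool.Agent.Helper41.LD7.Defs
import Pool.Agent.Helper18.LD6.FO

/-!
# LD7, block FO: one and two functionals, from the integrals of products of grid functions
-/

set_option autoImplicit false

namespace Pool.Agent.Helper18.LD7

open Set MeasureTheory
open Pool.Agent.Helper41.LD5 (fp pwf)
open Pool.Agent.Helper41.LD6 (hr vr vq Qs Gr)
open Pool.Agent.Helper41.LD7
open Pool.Agent.Helper18.LD6 (Core one_of two_of)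

variable {F : Pm} {K : ℕ} {a₀ ℓst a ℓ x : ℝ} {u u' : ℕ × (Fin (F.d + 1) → ℕ)} {j j' : ℕ}

theorem Is_mem (hu : u ∈ F.Is K) : u.1 < F.Q ∧ u.2 ∈ Qs F.d K := by
  unfold Pm.Is at hu
  obtain ⟨h1, h2⟩ := Finset.mem_product.1 hu
  exact ⟨Finset.mem_range.1 h1, h2⟩

/-- a functional at a time of its class -/
theorem G_in (K : ℕ) (a₀ ℓst : ℝ) (u : ℕ × (Fin (F.d + 1) → ℕ)) {j : ℕ} (hj : j < 2 ^ (2 * K)) (hc : (F.n₀ K a₀ ℓst + j) % F.Q = u.1) (x : ℝ) :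
    F.G K a₀ ℓst u j x = ∏ i : Fin (F.d + 1), hr (u.2 i) (pwf F.A₀ F.c F.P (F.n₀ K a₀ ℓst + j + i) x) := by
  unfold Pm.G GQ Pm.U
  rw [if_pos ⟨hj, hc⟩]
  refine Finset.prod_congr rfl fun i _ => ?_
  rw [add_assoc]

/-- a functional at the other times -/
theorem G_out (K : ℕ) (a₀ ℓst : ℝ) (u : ℕ × (Fin (F.d + 1) → ℕ)) {j : ℕ} (h : ¬ (j < 2 ^ (2 * K) ∧ (F.n₀ K a₀ ℓst + j) % F.Q = u.1)) (x : ℝ) :
    F.G K a₀ ℓst u j x = 0 := by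
  unfold Pm.G GQ
  rw [if_neg h]

theorem ok_of {ϑ : ℝ} (hTb : F.n₀ K a₀ ℓst + 2 ^ (2 * K) + F.Q + F.d + 2 ≤ 2 ^ (3 * K)) (hT1 : F.P + 1 ≤ F.n₀ K a₀ ℓst)
    (hVm : ∀ {j n : ℕ}, j ≤ n → F.V K a₀ ℓst j a ≤ F.V K a₀ ℓst n a) (hℓ : 0 ≤ ℓ) (hj : j < 2 ^ (2 * K))
    (hV : ϑ ≤ F.V K a₀ ℓst j a * ℓ) {i : ℕ} (hi : i ≤ F.d) :
    (F.P ≤ F.n₀ K a₀ ℓst + j + i ∧ F.n₀ K a₀ ℓst + j + i ≤ 2 ^ (3 * K)) ∧ ϑ ≤ fp F.A₀ F.P (F.n₀ K a₀ ℓst + j + i) a * ℓ := by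
  refine ⟨⟨by omega, by omega⟩, ?_⟩
  have h1 := hVm (j := j) (n := j + i) (by omega)
  unfold Pm.V at h1 hV
  rw [← add_assoc] at h1
  exact hV.trans (mul_le_mul_of_nonneg_right h1 hℓ)

theorem fast_one_of {p p' ϑ δ : ℝ} (hδ : 0 ≤ δ)
    (hTb : F.n₀ K a₀ ℓst + 2 ^ (2 * K) + F.Q + F.d + 2 ≤ 2 ^ (3 * K)) (hT1 : F.P + 1 ≤ F.n₀ K a₀ ℓst)
    (hVm : ∀ {j n : ℕ}, j ≤ n → F.V K a₀ ℓst j a ≤ F.V K a₀ ℓst n a) (hℓ : 0 ≤ ℓ)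
    (hcore : Core K F.t (fun τ => (F.P ≤ τ ∧ τ ≤ 2 ^ (3 * K)) ∧ ϑ ≤ fp F.A₀ F.P τ a * ℓ) (pwf F.A₀ F.c F.P) p p' δ)
    (hV : ϑ ≤ F.V K a₀ ℓst j a * ℓ) (hu : u ∈ F.Is K) :
    |∫ x in p..p', F.G K a₀ ℓst u j x| ≤ δ := by
  by_cases hj : j < 2 ^ (2 * K) ∧ (F.n₀ K a₀ ℓst + j) % F.Q = u.1
  · simp only [G_in K a₀ ℓst u hj.1 hj.2]
    exact one_of hcore (by unfold Pm.t; omega) (Is_mem hu).2 fun i hi => ok_of hTb hT1 hVm hℓ hj.1 hV hi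
  · simp only [G_out K a₀ ℓst u hj, intervalIntegral.integral_zero, abs_zero]
    exact hδ

open Classical in
theorem fast_two_of {ϑ δ : ℝ} (hδ : 0 ≤ δ)
    (hTb : F.n₀ K a₀ ℓst + 2 ^ (2 * K) + F.Q + F.d + 2 ≤ 2 ^ (3 * K)) (hT1 : F.P + 1 ≤ F.n₀ K a₀ ℓst)
    (hVm : ∀ {j n : ℕ}, j ≤ n → F.V K a₀ ℓst j a ≤ F.V K a₀ ℓst n a) (hℓ : 0 ≤ ℓ)
    (hcore : Core K F.t (fun τ => (F.P ≤ τ ∧ τ ≤ 2 ^ (3 * K)) ∧ ϑ ≤ fp F.A₀ F.P τ a * ℓ) (pwf F.A₀ F.c F.P) a (a + ℓ) δ)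
    (hV : ϑ ≤ F.V K a₀ ℓst j a * ℓ) (hV' : ϑ ≤ F.V K a₀ ℓst j' a * ℓ) (hu : u ∈ F.Is K) (hu' : u' ∈ F.Is K)
    (hj : j < 2 ^ (2 * K)) (hj' : j' < 2 ^ (2 * K)) :
    |(∫ x in a..(a + ℓ), F.G K a₀ ℓst u j x * F.G K a₀ ℓst u' j' x) -
        ℓ * (if j = j' ∧ u = u' ∧ (F.n₀ K a₀ ℓst + j) % F.Q = u.1 then vq u.2 else 0)| ≤ δ := by
  by_cases hc : (F.n₀ K a₀ ℓst + j) % F.Q = u.1
  · by_cases hc' : (F.n₀ K a₀ ℓst + j') % F.Q = u'.1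
    · have h1 := two_of hcore (by unfold Pm.t; omega) (Is_mem hu).2 (Is_mem hu').2
        (fun i hi => ok_of hTb hT1 hVm hℓ hj hV hi) (fun i hi => ok_of hTb hT1 hVm hℓ hj' hV' hi)
      rw [add_sub_cancel_left] at h1
      simp only [← G_in K a₀ ℓst u hj hc, ← G_in K a₀ ℓst u' hj' hc'] at h1
      have e2 : (F.n₀ K a₀ ℓst + j = F.n₀ K a₀ ℓst + j' ∧ u.2 = u'.2) ↔ (j = j' ∧ u = u' ∧ (F.n₀ K a₀ ℓst + j) % F.Q = u.1) := by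
        constructor
        · rintro ⟨h2, h3⟩
          have h4 : j = j' := by omega
          refine ⟨h4, Prod.ext ?_ h3, hc⟩
          rw [← hc, ← hc', h4]
        · rintro ⟨h2, h3, -⟩
          exact ⟨by omega, by rw [h3]⟩
      simp only [e2] at h1
      exact h1
    · have h3 : ¬ (j = j' ∧ u = u' ∧ (F.n₀ K a₀ ℓst + j) % F.Q = u.1) := by
        rintro ⟨h4, h5, h6⟩
        subst h4
        subst h5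
        exact hc' h6
      simp only [G_out K a₀ ℓst u' (fun h => hc' h.2), mul_zero, intervalIntegral.integral_zero, if_neg h3, sub_zero, abs_zero]
      exact hδ
  · have h3 : ¬ (j = j' ∧ u = u' ∧ (F.n₀ K a₀ ℓst + j) % F.Q = u.1) := fun h => hc h.2.2
    simp only [G_out K a₀ ℓst u (fun h => hc h.2), zero_mul, mul_zero, intervalIntegral.integral_zero, if_neg h3, sub_zero, abs_zero]
    exact hδ

end Pool.Agent.Helper18.LD7
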